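import Pool.Agent.W854.HW.Main
import Pool.Agent.W976.HWflow

set_option autoImplicit false

open MeasureTheory ProbabilityTheory Filter Topology Finset Set
open scoped NNReal ENNReal

noncomputable section

namespace Pool.Agent.W854.HW

/-- The theorem for the flow. -/
theorem final_flow (β : ℝ) (ν : Measure ℝ)
    (hν : speed ν ≤ ENNReal.ofReal (1 / 64)) (Ω : Type) (mΩ : MeasurableSpace Ω) (P : Measure Ω)
    (hP : IsProbabilityMeasure P) (K : ℝ → ℝ → Kernel (Ω × ℝ) ℝ)
    (hK : IsHowittWarrenFlow β ν P K) :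
    ∀ᵐ x : ℝ, ∀ (c σ : ℝ) (χ : Measure ℝ), σ ≠ 0 → IsProbabilityMeasure χ →
      ¬ Converges P K x c σ χ :=
  final Pool.Agent.W976.HWflow.flow Pool.Agent.W976.HWflow.meas β ν hν Ω mΩ P hP K hK

end Pool.Agent.W854.HW
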