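import Pool.Agent.W854.HW.Defs

set_option autoImplicit false

/-!
# Howitt-Warren flows with small speeds: the parts of the proof
-/

open MeasureTheory ProbabilityTheory Filter Topology Finset Set
open scoped NNReal ENNReal

noncomputable section

namespace Pool.Agent.W854.HW

/-! ## Notation -/

/-- Maximum over a finite set (`0` if empty). -/
def mx {n : ℕ} (S : Finset (Fin n)) (w : Fin n → ℝ) : ℝ := if h : S.Nonempty then S.sup' h w else 0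

/-- Minimum over a finite set (`0` if empty). -/
def mn {n : ℕ} (S : Finset (Fin n)) (w : Fin n → ℝ) : ℝ := if h : S.Nonempty then S.inf' h w else 0

/-- the indices with `y i ≤ z` -/
def lower {n : ℕ} (y : Fin n → ℝ) (z : ℝ) : Finset (Fin n) := Finset.univ.filter fun i => y i ≤ z

/-- the indices with `z < y i` -/
def upper {n : ℕ} (y : Fin n → ℝ) (z : ℝ) : Finset (Fin n) := Finset.univ.filter fun i => z < y i

/-- the values of `y` in `[y a, y b)` -/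
def cuts {n : ℕ} (y : Fin n → ℝ) (a b : Fin n) : Finset ℝ :=
  (Finset.univ.image y).filter fun z => y a ≤ z ∧ z < y b

/-- right speed -/
def speedR (ν : Measure ℝ) : ℝ := (2 * ∫⁻ q, (ENNReal.ofReal q)⁻¹ ∂ν).toReal

/-- left speed -/
def speedL (ν : Measure ℝ) : ℝ := (2 * ∫⁻ q, (ENNReal.ofReal (1 - q))⁻¹ ∂ν).toReal

/-! ## Martingale parts -/

/-- Doob's `L²` inequality for continuous martingales (qualitative form). -/
def S_DOOB : Prop :=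
  ∀ (Ω : Type) (mΩ : MeasurableSpace Ω) (P : Measure Ω) (_ : IsProbabilityMeasure P)
    (F : Filtration ℝ≥0 mΩ) (D : ℝ≥0 → Ω → ℝ), (∀ ω, Continuous fun t => D t ω) →
    (∀ t, MemLp (D t) 2 P) → Martingale D F P → ∀ T : ℝ≥0,
    ∃ S : Ω → ℝ, MemLp S 2 P ∧ ∀ᵐ ω ∂P, ∀ s ≤ T, |D s ω| ≤ S ω

/-- The gap lemma. `D` is a continuous martingale started from `g > 0` whose quadratic variation
grows at rate `2` while `D ≠ 0`, and `V ≥ 0` starts from `0` and has a drift between `0` and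
`Λ ≤ 1/64`. Then `E (D - V - 1)⁺ ≥ g/4` at time `32`. -/
def S_GAP : Prop :=
  ∀ (Ω : Type) (mΩ : MeasurableSpace Ω) (P : Measure Ω) (_ : IsProbabilityMeasure P)
    (F : Filtration ℝ≥0 mΩ) (D V b : ℝ≥0 → Ω → ℝ) (g Λ : ℝ), 0 < g → 0 ≤ Λ → Λ ≤ 1 / 64 →
    (∀ ω, Continuous fun t => D t ω) → (∀ᵐ ω ∂P, D 0 ω = g) → (∀ t, MemLp (D t) 2 P) →
    Martingale D F P →
    Martingale (fun (t : ℝ≥0) ω => D t ω ^ 2 -
      2 * ∫ s in (0 : ℝ)..t, if D s.toNNReal ω = 0 then (0 : ℝ) else 1) F P →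
    StronglyAdapted F V → (∀ᵐ ω ∂P, V 0 ω = 0) → (∀ t ω, 0 ≤ V t ω) →
    (∀ t ω, 0 ≤ b t ω ∧ b t ω ≤ Λ) → (∀ ω, Measurable fun s : ℝ => b s.toNNReal ω) →
    Martingale (fun (t : ℝ≥0) ω => V t ω - ∫ s in (0 : ℝ)..t, b s.toNNReal ω) F P →
    g / 4 ≤ ∫ ω, max (D 32 ω - V 32 ω - 1) 0 ∂P

/-- `D` has stayed in `(0, 4)` up to time `t`. -/
def alive {Ω : Type} (D : ℝ≥0 → Ω → ℝ) (t : ℝ≥0) : Set Ω := {ω | ∀ s ≤ t, 0 < D s ω ∧ D s ω < 4}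

/-- the grid `32 k / N` -/
def grid (N k : ℕ) : ℝ≥0 := 32 * k / N

/-- `D` leaves `(0, 4)` in the `k`-th step of the grid. -/
def exitAt {Ω : Type} (D : ℝ≥0 → Ω → ℝ) (N k : ℕ) : Set Ω :=
  alive D (grid N (k - 1)) \ alive D (grid N k)

/-- The discrete optional stopping identities behind the gap lemma. -/
def S_GAPD : Prop :=
  ∀ (Ω : Type) (mΩ : MeasurableSpace Ω) (P : Measure Ω) (_ : IsProbabilityMeasure P)
    (F : Filtration ℝ≥0 mΩ) (D V b : ℝ≥0 → Ω → ℝ) (g Λ : ℝ), 0 < g → g < 4 → 0 ≤ Λ →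
    (∀ ω, Continuous fun t => D t ω) → (∀ᵐ ω ∂P, D 0 ω = g) → (∀ t, MemLp (D t) 2 P) →
    Martingale D F P →
    Martingale (fun (t : ℝ≥0) ω => D t ω ^ 2 -
      2 * ∫ s in (0 : ℝ)..t, if D s.toNNReal ω = 0 then (0 : ℝ) else 1) F P →
    StronglyAdapted F V → (∀ᵐ ω ∂P, V 0 ω = 0) → (∀ t ω, 0 ≤ V t ω) →
    (∀ t ω, 0 ≤ b t ω ∧ b t ω ≤ Λ) → (∀ ω, Measurable fun s : ℝ => b s.toNNReal ω) →
    Martingale (fun (t : ℝ≥0) ω => V t ω - ∫ s in (0 : ℝ)..t, b s.toNNReal ω) F P →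
    (∀ t, MeasurableSet[F t] (alive D t)) ∧ (∀ t, Integrable (V t) P) ∧
    ∀ N : ℕ, 1 ≤ N →
      (∫ ω in alive D 32, D 32 ω ∂P) +
        ∑ k ∈ Finset.Icc 1 N, ∫ ω in exitAt D N k, D (grid N k) ω ∂P = g ∧
      g ^ 2 + 64 / N * ∑ k ∈ Finset.Icc 1 N, P.real (alive D (grid N k)) ≤
        (∫ ω in alive D 32, D 32 ω ^ 2 ∂P) +
          ∑ k ∈ Finset.Icc 1 N, ∫ ω in exitAt D N k, D (grid N k) ω ^ 2 ∂P ∧
      (∫ ω in alive D 32, V 32 ω ∂P) +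
          ∑ k ∈ Finset.Icc 1 N, ∫ ω in exitAt D N k, V (grid N k) ω ∂P ≤
        Λ * (32 / N) * ∑ k ∈ Finset.range N, P.real (alive D (grid N k)) ∧
      ∀ k ≤ N, ∀ C : Set Ω, MeasurableSet[F (grid N k)] C →
        (∫ ω in C, (D (grid N k) ω - V (grid N k) ω) ∂P) - 32 * Λ * P.real C ≤
          ∫ ω in C, (D 32 ω - V 32 ω) ∂P

/-- Inclusion-exclusion: alternating sum over the nonempty subsets of `Δ` of a function of the
maximum and of the number of maximisers. -/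
def S_INEX : Prop :=
  ∀ (n : ℕ) (Δ : Finset (Fin n)) (hΔ : Δ.Nonempty) (x : Fin n → ℝ) (G : ℝ → ℕ → ℝ),
    ∑ S ∈ Δ.powerset.erase ∅, (-1 : ℝ) ^ (S.card + 1) * G (mx S x) (argmaxCard S x) =
      ∑ k ∈ Finset.Icc 1 (Δ.filter fun i => ∀ j ∈ Δ, x i ≤ x j).card,
        (-1 : ℝ) ^ (k + 1) * ((Δ.filter fun i => ∀ j ∈ Δ, x i ≤ x j).card.choose k) *
          G (mn Δ x) k

/-- The binomial identity behind `β₋(m) = β - 2 ∫ ν(dq) ∑_{k=0}^{m-2} q^k`. -/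
def S_BIN : Prop :=
  ∀ (β : ℝ) (ν : Measure ℝ), speed ν ≠ ⊤ → ∀ m : ℕ, 1 ≤ m →
    ∑ k ∈ Finset.Icc 1 m, (-1 : ℝ) ^ (k + 1) * (m.choose k) * betaPlus β ν k =
      β - 2 * ∫ q, ∑ k ∈ Finset.range (m - 1), q ^ k ∂ν

/-- Bounds for the drifts. -/
def S_BOUNDS : Prop :=
  ∀ (ν : Measure ℝ), speed ν ≠ ⊤ →
    speedR ν + speedL ν = (speed ν).toReal ∧
    (∀ (β : ℝ) (m : ℕ), β ≤ betaPlus β ν m ∧ betaPlus β ν m ≤ β + speedR ν) ∧
    ∀ (β : ℝ) (m : ℕ), β - speedL ν ≤ β - 2 * ∫ q, ∑ k ∈ Finset.range (m - 1), q ^ k ∂ν ∧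
      β - 2 * ∫ q, ∑ k ∈ Finset.range (m - 1), q ^ k ∂ν ≤ β

/-- The minimum over a set of particles: its drift is between `β - speedL` and `β`. -/
def S_MIN : Prop :=
  ∀ (β : ℝ) (ν : Measure ℝ), speed ν ≠ ⊤ → ∀ (n : ℕ) (x : Fin n → ℝ) (Ω : Type)
    (mΩ : MeasurableSpace Ω) (P : Measure Ω) (_ : IsProbabilityMeasure P)
    (X : ℝ≥0 → Ω → Fin n → ℝ), IsHWMotion β ν x P X →
    ∀ (hX : ∀ t, StronglyMeasurable (X t)) (Δ : Finset (Fin n)) (hΔ : Δ.Nonempty),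
    ∃ b : ℝ≥0 → Ω → ℝ, (∀ t ω, β - speedL ν ≤ b t ω ∧ b t ω ≤ β) ∧
      (∀ ω, Measurable fun s : ℝ => b s.toNNReal ω) ∧
      Martingale (fun (t : ℝ≥0) ω => Δ.inf' hΔ (X t ω) - ∫ s in (0 : ℝ)..t, b s.toNNReal ω)
        (Filtration.natural X hX) P

/-- A cut between two sets of particles opens to a gap of size more than one. -/
def S_SPLIT : Prop :=
  ∀ (β : ℝ) (ν : Measure ℝ), speed ν ≤ ENNReal.ofReal (1 / 64) → ∀ (n : ℕ) (y : Fin n → ℝ)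
    (Ω : Type) (mΩ : MeasurableSpace Ω) (P : Measure Ω) (_ : IsProbabilityMeasure P)
    (X : ℝ≥0 → Ω → Fin n → ℝ), IsHWMotion β ν y P X →
    ∀ (L R : Finset (Fin n)) (hL : L.Nonempty) (hR : R.Nonempty) (i j : Fin n), i ∈ L → j ∈ R →
    (∀ k ∈ L, y k ≤ y i) → (∀ k ∈ R, y j ≤ y k) → y i < y j →
    (y j - y i) / 4 ≤ ∫ ω, max (R.inf' hR (X 32 ω) - L.sup' hL (X 32 ω) - 1) 0 ∂P

/-- The gaps cover the interval, and the gaps larger than one are empty windows (deterministic). -/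
def S_GEOM : Prop :=
  ∀ (n : ℕ) (y w : Fin n → ℝ) (a b : Fin n), y a < y b →
    (∑ z ∈ cuts y a b, (mn (upper y z) y - z)) = y b - y a ∧
    (∑ z ∈ cuts y a b, max (mn (upper y z) w - mx (lower y z) w - 1) 0) -
        max (y a - w a) 0 - max (w b - y b) 0 ≤
      (volume {c : ℝ | c ∈ Icc (y a) (y b) ∧ ∀ i, w i ∉ Icc c (c + 1)}).toReal

/-- The `n`-point motion leaves many windows `[c, c + 1]` empty at time `32`. -/
def S_POINT : Prop :=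
  ∀ (β : ℝ) (ν : Measure ℝ), speed ν ≤ ENNReal.ofReal (1 / 64) → ∀ (n : ℕ) (y : Fin n → ℝ)
    (Ω : Type) (mΩ : MeasurableSpace Ω) (P : Measure Ω) (_ : IsProbabilityMeasure P)
    (X : ℝ≥0 → Ω → Fin n → ℝ), IsHWMotion β ν y P X → ∀ a b : Fin n, y a ≤ y b →
    ENNReal.ofReal ((y b - y a) / 4 - (12 + 64 * |β|)) ≤
      ∫⁻ c in Icc (y a) (y b), P {ω | ∀ i, X 32 ω i ∉ Icc c (c + 1)}

/-! ## Flow parts -/

/-- Independence as a Fubini formula. -/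
def S_IND : Prop :=
  ∀ (Ω : Type) (mΩ : MeasurableSpace Ω) (P : Measure Ω) (_ : IsProbabilityMeasure P)
    (m₁ m₂ : MeasurableSpace Ω), m₁ ≤ mΩ → m₂ ≤ mΩ → Indep m₁ m₂ P → ∀ H : Ω × Ω → ℝ≥0∞,
    Measurable[m₁.prod m₂] H → ∫⁻ ω, H (ω, ω) ∂P = ∫⁻ ω, ∫⁻ ω', H (ω, ω') ∂P ∂P

/-- The integral of a product over the `n`-fold product of a probability measure. -/
def S_POW : Prop :=
  ∀ (μ : Measure ℝ) (_ : IsProbabilityMeasure μ) (k : ℝ → ℝ≥0∞), Measurable k → ∀ n : ℕ,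
    (∫⁻ y, k y ∂μ) ^ n = ∫⁻ y, ∏ i, k (y i) ∂(Measure.pi fun _ : Fin n => μ)

/-- The moment form of the lower bound for the flow. -/
def S_FLOWN : Prop :=
  ∀ (β : ℝ) (ν : Measure ℝ), speed ν ≤ ENNReal.ofReal (1 / 64) →
    ∀ (Ω : Type) (mΩ : MeasurableSpace Ω) (P : Measure Ω) (_ : IsProbabilityMeasure P)
    (K : ℝ → ℝ → Kernel (Ω × ℝ) ℝ), IsHowittWarrenFlow β ν P K → ∀ (t j₀ j₁ : ℝ), 32 ≤ t →
    j₀ ≤ j₁ → ∀ n : ℕ, ENNReal.ofReal ((j₁ - j₀) / 4 - (12 + 64 * |β|)) ≤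
      ∫⁻ c in Icc j₀ j₁, ∫⁻ ω, (K 0 t (ω, 0) (Icc c (c + 1))ᶜ) ^ n ∂P

/-- Limit `n → ∞`. -/
def S_FLOW : Prop :=
  ∀ (β : ℝ) (ν : Measure ℝ), speed ν ≤ ENNReal.ofReal (1 / 64) →
    ∀ (Ω : Type) (mΩ : MeasurableSpace Ω) (P : Measure Ω) (_ : IsProbabilityMeasure P)
    (K : ℝ → ℝ → Kernel (Ω × ℝ) ℝ), IsHowittWarrenFlow β ν P K → ∀ (t j₀ j₁ : ℝ), 32 ≤ t →
    j₀ ≤ j₁ → ENNReal.ofReal ((j₁ - j₀) / 4 - (12 + 64 * |β|)) ≤
      ∫⁻ c in Icc j₀ j₁, emptyProb P K t c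

/-- Measurability of the probability of an empty window. -/
def S_MEAS : Prop :=
  ∀ (Ω : Type) (mΩ : MeasurableSpace Ω) (P : Measure Ω) (_ : IsProbabilityMeasure P)
    (K : ℝ → ℝ → Kernel (Ω × ℝ) ℝ) (t : ℝ), 0 ≤ t → IsStochasticFlow P K →
    Measurable fun c => emptyProb P K t c

/-! ## The end of the proof -/

/-- A lower bound on average over all long intervals excludes convergence to `0` on almost every
ray. -/
def S_AE : Prop :=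
  ∀ (f : ℝ → ℝ → ℝ≥0∞) (C : ℝ), (∀ t, 32 ≤ t → Measurable (f t)) → (∀ t a, f t a ≤ 1) →
    (∀ t j₀ j₁ : ℝ, 32 ≤ t → j₀ ≤ j₁ → ENNReal.ofReal ((j₁ - j₀) / 4 - C) ≤
      ∫⁻ c in Icc j₀ j₁, f t c) →
    ∀ᵐ x : ℝ, ¬ Tendsto (fun t : ℝ => f t (t * x)) atTop (𝓝 0)

/-- Convergence in distribution to a real law forces the probability of `K = 0` to vanish. -/
def S_CONV : Prop :=
  ∀ (Ω : Type) (mΩ : MeasurableSpace Ω) (P : Measure Ω) (_ : IsProbabilityMeasure P)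
    (K : ℝ → ℝ → Kernel (Ω × ℝ) ℝ) (x c σ : ℝ) (χ : Measure ℝ) (_ : IsProbabilityMeasure χ),
    σ ≠ 0 → Converges P K x c σ χ → Tendsto (fun t : ℝ => emptyProb P K t (t * x)) atTop (𝓝 0)

end Pool.Agent.W854.HW
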