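import Mathlib

set_option autoImplicit false

/-!
# Howitt-Warren flows: definitions
-/

open MeasureTheory ProbabilityTheory Filter Topology Finset Set
open scoped NNReal ENNReal

noncomputable section

namespace Pool.Agent.W854.HW

/-! ## The Howitt-Warren martingale problem -/

/-- The drift `β₊(m) = β + 2 ∫ ν(dq) ∑_{k=0}^{m-2} (1-q)^k` (so `β₊(1) = β`). -/
def betaPlus (β : ℝ) (ν : Measure ℝ) (m : ℕ) : ℝ :=
  β + 2 * ∫ q, ∑ k ∈ Finset.range (m - 1), (1 - q) ^ k ∂ν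

/-- `g_Δ(x)`: the number of `i ∈ Δ` at which the maximum of `x` over `Δ` is attained. -/
def argmaxCard {n : ℕ} (Δ : Finset (Fin n)) (x : Fin n → ℝ) : ℕ :=
  (Δ.filter fun i => ∀ j ∈ Δ, x j ≤ x i).card

/-- `X` is a solution of the Howitt-Warren martingale problem with drift `β` and characteristic
measure `ν` started from `x`: it is continuous and square integrable, `X i - β t` is a martingale
(this is the case `Δ = {i}` of `maxm`), the covariation of `X i` and `X j` is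
`∫ 1{X i = X j} ds`, and for every nonempty `Δ` the process
`max_Δ X - ∫ β₊(g_Δ(X)) ds` is a martingale, all for the natural filtration of `X`. -/
structure IsHWMotion (β : ℝ) (ν : Measure ℝ) {n : ℕ} (x : Fin n → ℝ) {Ω : Type*}
    [mΩ : MeasurableSpace Ω] (P : Measure Ω) (X : ℝ≥0 → Ω → Fin n → ℝ) : Prop where
  cont : ∀ ω, Continuous fun t => X t ω
  start : ∀ᵐ ω ∂P, X 0 ω = x
  sq : ∀ t i, MemLp (fun ω => X t ω i) 2 P
  mart : ∃ hX : ∀ t, StronglyMeasurable (X t),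
    (∀ i j, Martingale (fun (t : ℝ≥0) ω => (X t ω i - β * t) * (X t ω j - β * t) -
      ∫ s in (0 : ℝ)..t, if X s.toNNReal ω i = X s.toNNReal ω j then (1 : ℝ) else 0)
      (Filtration.natural X hX) P) ∧
    ∀ (Δ : Finset (Fin n)) (hΔ : Δ.Nonempty),
      Martingale (fun (t : ℝ≥0) ω => Δ.sup' hΔ (X t ω) -
        ∫ s in (0 : ℝ)..t, betaPlus β ν (argmaxCard Δ (X s.toNNReal ω)))
        (Filtration.natural X hX) P

/-! ## Stochastic flows of kernels -/

/-- `K s t`, `s ≤ t`, is a stochastic flow of (random, probability) kernels on `ℝ`. The kernel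
attached to the time interval `[s, t]` is measurable with respect to a σ-algebra `F s t`, and the
`F (τ i) (τ (i+1))` attached to successive time intervals are independent. -/
structure IsStochasticFlow {Ω : Type*} [mΩ : MeasurableSpace Ω] (P : Measure Ω)
    (K : ℝ → ℝ → Kernel (Ω × ℝ) ℝ) : Prop where
  markov : ∀ s t, s ≤ t → IsMarkovKernel (K s t)
  self : ∀ s x, ∀ᵐ ω ∂P, K s s (ω, x) = Measure.dirac x
  comp : ∀ s t u, s ≤ t → t ≤ u → ∀ x, ∀ᵐ ω ∂P, ∀ A, MeasurableSet A →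
    ∫⁻ y, K t u (ω, y) A ∂(K s t (ω, x)) = K s u (ω, x) A
  indep : ∃ F : ℝ → ℝ → MeasurableSpace Ω, (∀ s t, F s t ≤ mΩ) ∧
    (∀ s t A, s ≤ t → MeasurableSet A →
      Measurable[(F s t).prod (borel ℝ)] fun p : Ω × ℝ => K s t p A) ∧
    ∀ (m : ℕ) (τ : ℕ → ℝ), Monotone τ → iIndep (fun i : Fin m => F (τ i) (τ (i + 1))) P
  stat : ∀ s t u, s ≤ t → ∀ (m : ℕ) (x : Fin m → ℝ),
    Measure.map (fun ω i => K s t (ω, x i)) P =
      Measure.map (fun ω i => K (s + u) (t + u) (ω, x i)) P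

/-- `K` is a Howitt-Warren flow with drift `β` and characteristic measure `ν`: a stochastic flow of
kernels whose `n`-point motions solve the Howitt-Warren martingale problem. -/
structure IsHowittWarrenFlow (β : ℝ) (ν : Measure ℝ) {Ω : Type*} [mΩ : MeasurableSpace Ω]
    (P : Measure Ω) (K : ℝ → ℝ → Kernel (Ω × ℝ) ℝ) : Prop where
  flow : IsStochasticFlow P K
  motion : ∀ (n : ℕ) (x : Fin n → ℝ), ∃ (Ω' : Type) (_ : MeasurableSpace Ω') (P' : Measure Ω')
    (_ : IsProbabilityMeasure P') (X : ℝ≥0 → Ω' → Fin n → ℝ), IsHWMotion β ν x P' X ∧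
      ∀ (t : ℝ≥0) (A : Fin n → Set ℝ), (∀ i, MeasurableSet (A i)) →
        P' {ω | ∀ i, X t ω i ∈ A i} = ∫⁻ ω, ∏ i, K 0 t (ω, x i) (A i) ∂P

/-- The sum `2 ∫ (1/q + 1/(1-q)) ν(dq) ∈ [0, ∞]` of the right and the left speed of the flow
(relative to `β`). It is infinite unless `ν` is carried by `(0, 1)`. -/
def speed (ν : Measure ℝ) : ℝ≥0∞ :=
  2 * ∫⁻ q, ((ENNReal.ofReal q)⁻¹ + (ENNReal.ofReal (1 - q))⁻¹) ∂ν

/-- The probability that the kernel from `0` at time `t` gives no mass to `[a, a + 1]`. -/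
def emptyProb {Ω : Type*} [mΩ : MeasurableSpace Ω] (P : Measure Ω) (K : ℝ → ℝ → Kernel (Ω × ℝ) ℝ)
    (t a : ℝ) : ℝ≥0∞ :=
  P {ω | K 0 t (ω, 0) (Icc a (a + 1)) = 0}

/-! ## The fluctuations -/

/-- `(-log k - c t) / (σ t^{1/3})` as an extended real number, where `-log 0 = +∞`. -/
def fluct (c σ t : ℝ) (k : ℝ≥0∞) : EReal :=
  (-(ENNReal.log k) - ((c * t : ℝ) : EReal)) / ((σ * t ^ (1 / 3 : ℝ) : ℝ) : EReal)

/-- `(-log K_{0,t}(0,[tx, tx+1]) - c t) / (σ t^{1/3})` converges in distribution, as `t → ∞`, to the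
probability measure `χ` on `ℝ`. -/
def Converges {Ω : Type*} [mΩ : MeasurableSpace Ω] (P : Measure Ω) (K : ℝ → ℝ → Kernel (Ω × ℝ) ℝ)
    (x c σ : ℝ) (χ : Measure ℝ) : Prop :=
  ∀ s : ℝ, χ {s} = 0 →
    Tendsto (fun t : ℝ => P {ω | fluct c σ t (K 0 t (ω, 0) (Icc (t * x) (t * x + 1))) ≤ (s : EReal)})
      atTop (𝓝 (χ (Iic s)))

end Pool.Agent.W854.HW
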