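import Pool.Agent.W854.HW.Stmts

set_option autoImplicit false

open MeasureTheory ProbabilityTheory Filter Topology Finset Set
open scoped NNReal ENNReal

noncomputable section

namespace Pool.Agent.W854.HW.GapL

/-- distance to `{0, 4}` -/
def rho (d : ℝ) : ℝ := min |d| |d - 4|

def qq (d : ℝ) : ℝ := rho d * (4 + rho d)

lemma rho_nonneg (d : ℝ) : 0 ≤ rho d := le_min (abs_nonneg _) (abs_nonneg _)

lemma rho_le_qq (d : ℝ) : rho d ≤ qq d / 4 := by
  have := rho_nonneg d
  unfold qq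
  nlinarith

lemma qq_nonneg (d : ℝ) : 0 ≤ qq d := by
  have := rho_nonneg d
  unfold qq
  positivity

lemma sq_le_qq (d : ℝ) : d ^ 2 ≤ 4 * d + qq d := by
  have h0 := rho_nonneg d
  have h1 : d ^ 2 - 4 * d ≤ |d| * |d - 4| := by
    rw [← abs_mul]
    calc d ^ 2 - 4 * d = d * (d - 4) := by ring
      _ ≤ _ := le_abs_self _
  have h2 : |d| * |d - 4| ≤ qq d := by
    have h3 : |d| ≤ 4 + |d - 4| := by
      calc |d| = |(d - 4) + 4| := by ring_nf
        _ ≤ |d - 4| + |4| := abs_add_le _ _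
        _ = _ := by rw [abs_of_pos (by norm_num : (0:ℝ) < 4)]; ring
    have h4 : |d - 4| ≤ 4 + |d| := by
      calc |d - 4| = |d + (-4)| := by ring_nf
        _ ≤ |d| + |-4| := abs_add_le _ _
        _ = _ := by rw [abs_neg, abs_of_pos (by norm_num : (0:ℝ) < 4)]; ring
    unfold qq rho
    rcases le_total |d| |d - 4| with h | h
    · rw [min_eq_left h]
      have := abs_nonneg d
      nlinarith
    · rw [min_eq_right h]
      have := abs_nonneg (d - 4)
      nlinarith
  linarith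

lemma le_rho_of_lt {d : ℝ} (h : d < 2) : d ≤ rho d := by
  unfold rho
  apply le_min (le_abs_self _)
  rw [abs_of_neg (by linarith)]
  linarith

lemma sub_le_rho {d : ℝ} (h : 2 ≤ d) : 4 - d ≤ rho d := by
  unfold rho
  apply le_min
  · rw [abs_of_nonneg (by linarith)]; linarith
  · have := neg_abs_le (d - 4)
    linarith

lemma rho_le_abs (d : ℝ) : rho d ≤ |d| := min_le_left _ _

lemma continuous_rho : Continuous rho := by unfold rho; fun_prop

lemma continuous_qq : Continuous qq := by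
  unfold qq
  exact continuous_rho.mul (continuous_const.add continuous_rho)

section setup

variable {Ω : Type}

lemma alive_anti (D : ℝ≥0 → Ω → ℝ) {s t : ℝ≥0} (h : s ≤ t) : alive D t ⊆ alive D s :=
  fun _ hω u hu => hω u (hu.trans h)

lemma grid_mono (N : ℕ) {j k : ℕ} (h : j ≤ k) : grid N j ≤ grid N k := by
  unfold grid
  gcongr

lemma grid_self {N : ℕ} (hN : 1 ≤ N) : grid N N = 32 := by
  unfold grid
  have : (N : ℝ≥0) ≠ 0 := by positivity
  field_simp

lemma grid_zero (N : ℕ) : grid N 0 = 0 := by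
  unfold grid
  simp

lemma grid_le {N k : ℕ} (hN : 1 ≤ N) (h : k ≤ N) : grid N k ≤ 32 := by
  rw [← grid_self hN]
  exact grid_mono N h

lemma exit_disj (D : ℝ≥0 → Ω → ℝ) (N : ℕ) {j k : ℕ} (h : j < k) :
    Disjoint (exitAt D N j) (exitAt D N k) := by
  rw [Set.disjoint_left]
  intro ω h1 h2
  exact h1.2 (alive_anti D (grid_mono N (by omega : j ≤ k - 1)) h2.1)

lemma exit_pairwise (D : ℝ≥0 → Ω → ℝ) (N : ℕ) (s : Set ℕ) :
    s.PairwiseDisjoint (exitAt D N) := by
  intro j _ k _ hjk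
  rcases lt_or_gt_of_ne hjk with h | h
  · exact exit_disj D N h
  · exact (exit_disj D N h).symm

/-- At the exit step the value is close to `0` or `4`. -/
lemma rho_exit (D : ℝ≥0 → Ω → ℝ) {N k : ℕ} {ω : Ω} {ε : ℝ}
    (hosc : ∀ s ∈ Icc (grid N (k - 1)) (grid N k), ∀ t ∈ Icc (grid N (k - 1)) (grid N k),
      |D s ω - D t ω| ≤ ε)
    (h : ω ∈ exitAt D N k) : rho (D (grid N k) ω) ≤ ε := by
  obtain ⟨h1, h2⟩ := h
  have hle : grid N (k - 1) ≤ grid N k := grid_mono N (by omega)
  have hm1 : grid N (k - 1) ∈ Icc (grid N (k - 1)) (grid N k) := ⟨le_rfl, hle⟩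
  have hm2 : grid N k ∈ Icc (grid N (k - 1)) (grid N k) := ⟨hle, le_rfl⟩
  have hp := h1 _ le_rfl
  simp only [alive, Set.mem_ofPred_eq, not_forall] at h2
  obtain ⟨s, hs, hbad⟩ := h2
  have hs1 : grid N (k - 1) ≤ s := by
    by_contra hcon
    exact hbad (h1 s (not_le.1 hcon).le)
  have hms : s ∈ Icc (grid N (k - 1)) (grid N k) := ⟨hs1, hs⟩
  have e1 := abs_le.1 (hosc _ hm2 _ hms)
  have e2 := abs_le.1 (hosc _ hm2 _ hm1)
  by_cases hlow : 0 < D s ω
  · have hhigh : 4 ≤ D s ω := by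
      by_contra hcon
      exact hbad ⟨hlow, not_le.1 hcon⟩
    refine (min_le_right _ _).trans ?_
    rw [abs_le]
    constructor <;> linarith [hp.2]
  · refine (min_le_left _ _).trans ?_
    rw [abs_le]
    constructor <;> linarith [hp.1, not_lt.1 hlow]

/-- the error term -/
def err (D : ℝ≥0 → Ω → ℝ) (N : ℕ) (ω : Ω) : ℝ :=
  ∑ k ∈ Finset.Icc 1 N, (exitAt D N k).indicator (fun ω => qq (D (grid N k) ω)) ω

lemma err_nonneg (D : ℝ≥0 → Ω → ℝ) (N : ℕ) (ω : Ω) : 0 ≤ err D N ω :=
  Finset.sum_nonneg fun k _ => Set.indicator_nonneg (fun _ _ => qq_nonneg _) _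

lemma err_le (D : ℝ≥0 → Ω → ℝ) (N : ℕ) (ω : Ω) {B : ℝ} (hB : 0 ≤ B)
    (h : ∀ k ∈ Finset.Icc 1 N, ω ∈ exitAt D N k → qq (D (grid N k) ω) ≤ B) :
    err D N ω ≤ B := by
  unfold err
  by_cases hex : ∃ k ∈ Finset.Icc 1 N, ω ∈ exitAt D N k
  · obtain ⟨k, hk, hω⟩ := hex
    rw [Finset.sum_eq_single_of_mem k hk]
    · rw [Set.indicator_of_mem hω]
      exact h k hk hω
    · intro j _ hj
      apply Set.indicator_of_notMem
      intro hω'
      rcases lt_or_gt_of_ne hj with h' | h'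
      · exact Set.disjoint_left.1 (exit_disj D N h') hω' hω
      · exact Set.disjoint_left.1 (exit_disj D N h') hω hω'
  · rw [Finset.sum_eq_zero]
    · exact hB
    · intro k hk
      apply Set.indicator_of_notMem
      intro hω
      exact hex ⟨k, hk, hω⟩

lemma grid_step {N k : ℕ} (hN : 1 ≤ N) (hk : 1 ≤ k) :
    (grid N k : ℝ) = grid N (k - 1) + 32 / N := by
  obtain ⟨j, rfl⟩ : ∃ j, k = j + 1 := ⟨k - 1, by omega⟩
  have : (N : ℝ) ≠ 0 := by positivity
  simp only [grid, NNReal.coe_div, NNReal.coe_mul, NNReal.coe_ofNat, NNReal.coe_natCast,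
    Nat.add_sub_cancel]
  push_cast
  field_simp

lemma tendsto_err (D : ℝ≥0 → Ω → ℝ) (ω : Ω) (hc : Continuous fun t => D t ω) :
    Tendsto (fun N => err D N ω) atTop (𝓝 0) := by
  rw [Metric.tendsto_atTop]
  intro ε hε
  -- choose a small oscillation
  obtain ⟨η, hη, hη2⟩ : ∃ η : ℝ, 0 < η ∧ η * (4 + η) < ε := by
    refine ⟨min 1 (ε / 10), by positivity, ?_⟩
    have h1 : min 1 (ε / 10) ≤ 1 := min_le_left _ _
    have h2 : min 1 (ε / 10) ≤ ε / 10 := min_le_right _ _
    have h3 : 0 < min 1 (ε / 10) := by positivity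
    nlinarith
  have huc := (isCompact_Icc (a := (0 : ℝ≥0)) (b := 32)).uniformContinuousOn_of_continuous
    hc.continuousOn
  rw [Metric.uniformContinuousOn_iff] at huc
  obtain ⟨δ, hδ, hδ2⟩ := huc η hη
  obtain ⟨N₀, hN₀⟩ := exists_nat_gt (32 / δ)
  refine ⟨max 1 N₀, fun N hN => ?_⟩
  have hN1 : 1 ≤ N := (le_max_left _ _).trans hN
  have hNN : N₀ ≤ N := (le_max_right _ _).trans hN
  have hstep : 32 / (N : ℝ) < δ := by
    rw [div_lt_comm₀ (by positivity) hδ]
    exact hN₀.trans_le (by exact_mod_cast hNN)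
  rw [Real.dist_eq, sub_zero, abs_of_nonneg (err_nonneg _ _ _)]
  refine lt_of_le_of_lt (err_le D N ω (B := η * (4 + η)) (by positivity) ?_) hη2
  intro k hk hω
  rw [Finset.mem_Icc] at hk
  have hr : rho (D (grid N k) ω) ≤ η := by
    apply rho_exit D _ hω
    intro s hs t ht
    have hk32 : grid N k ≤ 32 := grid_le hN1 hk.2
    have := hδ2 s ⟨zero_le, hs.2.trans hk32⟩ t ⟨zero_le, ht.2.trans hk32⟩ ?_
    · rw [Real.dist_eq] at this
      exact this.le
    · rw [NNReal.dist_eq]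
      have h1 : (grid N (k - 1) : ℝ) ≤ s := by exact_mod_cast hs.1
      have h2 : (s : ℝ) ≤ grid N k := by exact_mod_cast hs.2
      have h3 : (grid N (k - 1) : ℝ) ≤ t := by exact_mod_cast ht.1
      have h4 : (t : ℝ) ≤ grid N k := by exact_mod_cast ht.2
      rw [grid_step hN1 hk.1] at h2 h4
      rw [abs_lt]
      constructor <;> linarith
  have h0 := rho_nonneg (D (grid N k) ω)
  unfold qq
  nlinarith

end setup

variable {Ω : Type} {mΩ : MeasurableSpace Ω} {P : Measure Ω} [IsProbabilityMeasure P]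
  {F : Filtration ℝ≥0 mΩ} {D V b : ℝ≥0 → Ω → ℝ} {g Λ : ℝ}

/-- the conclusion of `S_GAPD` for one `N` -/
lemma core (hΛ1 : Λ ≤ 1 / 64) (hΛ0 : 0 ≤ Λ) (hV0 : ∀ t ω, 0 ≤ V t ω)
    (hDm : ∀ t, Measurable (D t))
    (hD2 : ∀ t, MemLp (D t) 2 P) (hVi : ∀ t, Integrable (V t) P)
    (hal : ∀ t, MeasurableSet[F t] (alive D t))
    (hDF : ∀ t, Measurable[F t] (D t))
    (N : ℕ) (hN : 1 ≤ N) (herr : Integrable (err D N) P)
    (h1 : (∫ ω in alive D 32, D 32 ω ∂P) +
        ∑ k ∈ Finset.Icc 1 N, ∫ ω in exitAt D N k, D (grid N k) ω ∂P = g)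
    (h2 : g ^ 2 + 64 / N * ∑ k ∈ Finset.Icc 1 N, P.real (alive D (grid N k)) ≤
        (∫ ω in alive D 32, D 32 ω ^ 2 ∂P) +
          ∑ k ∈ Finset.Icc 1 N, ∫ ω in exitAt D N k, D (grid N k) ω ^ 2 ∂P)
    (h3 : (∫ ω in alive D 32, V 32 ω ∂P) +
          ∑ k ∈ Finset.Icc 1 N, ∫ ω in exitAt D N k, V (grid N k) ω ∂P ≤
        Λ * (32 / N) * ∑ k ∈ Finset.range N, P.real (alive D (grid N k)))
    (h4 : ∀ k ≤ N, ∀ C : Set Ω, MeasurableSet[F (grid N k)] C →
        (∫ ω in C, (D (grid N k) ω - V (grid N k) ω) ∂P) - 32 * Λ * P.real C ≤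
          ∫ ω in C, (D 32 ω - V 32 ω) ∂P) :
    7 / 16 * g - 3 / N - 19 / 64 * ∫ ω, err D N ω ∂P ≤
      ∫ ω, max (D 32 ω - V 32 ω - 1) 0 ∂P := by
  have hNpos : (0 : ℝ) < N := by exact_mod_cast hN
  have hDi : ∀ t, Integrable (D t) P := fun t => (hD2 t).integrable one_le_two
  have hD2i : ∀ t, Integrable (fun ω => D t ω ^ 2) P := fun t => (hD2 t).integrable_sq
  have halm : ∀ t, MeasurableSet (alive D t) := fun t => F.le t _ (hal t)
  have hBF : ∀ k, MeasurableSet[F (grid N k)] (exitAt D N k) := fun k =>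
    MeasurableSet.diff (F.mono (grid_mono N (by omega)) _ (hal _)) (hal _)
  have hB : ∀ k, MeasurableSet (exitAt D N k) := fun k => F.le _ _ (hBF k)
  set C : ℕ → Set Ω := fun k => exitAt D N k ∩ {ω | 2 ≤ D (grid N k) ω} with hC
  have hCF : ∀ k, MeasurableSet[F (grid N k)] (C k) := fun k =>
    MeasurableSet.inter (hBF k) (measurableSet_le measurable_const (hDF _))
  have hCm : ∀ k, MeasurableSet (C k) := fun k => F.le _ _ (hCF k)
  set e : ℕ → ℝ := fun k => ∫ ω in exitAt D N k, qq (D (grid N k) ω) ∂P with he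
  -- integrability of qq on the exit sets
  have hind : ∀ k ∈ Finset.Icc 1 N,
      Integrable ((exitAt D N k).indicator (fun ω => qq (D (grid N k) ω))) P := by
    intro k hk
    refine herr.mono' ?_ ?_
    · exact ((continuous_qq.measurable.comp (hDm _)).indicator (hB k)).aestronglyMeasurable
    · refine Eventually.of_forall fun ω => ?_
      rw [Real.norm_of_nonneg (Set.indicator_nonneg (fun _ _ => qq_nonneg _) _)]
      exact Finset.single_le_sum (f := fun k =>
        (exitAt D N k).indicator (fun ω => qq (D (grid N k) ω)) ω)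
        (fun j _ => Set.indicator_nonneg (fun _ _ => qq_nonneg _) _) hk
  have hqi : ∀ k ∈ Finset.Icc 1 N, IntegrableOn (fun ω => qq (D (grid N k) ω)) (exitAt D N k) P :=
    fun k hk => (integrable_indicator_iff (hB k)).1 (hind k hk)
  have hesum : ∑ k ∈ Finset.Icc 1 N, e k = ∫ ω, err D N ω ∂P := by
    unfold err
    rw [integral_finsetSum _ hind]
    refine Finset.sum_congr rfl fun k _ => ?_
    rw [integral_indicator (hB k)]
  have hri : ∀ k ∈ Finset.Icc 1 N, IntegrableOn (fun ω => rho (D (grid N k) ω)) (exitAt D N k) P := by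
    intro k _
    refine ((hDi (grid N k)).abs.integrableOn).mono'
      (continuous_rho.measurable.comp (hDm _)).aestronglyMeasurable ?_
    refine Eventually.of_forall fun ω => ?_
    rw [Real.norm_of_nonneg (rho_nonneg _)]
    exact rho_le_abs _
  have hrho : ∀ k ∈ Finset.Icc 1 N,
      ∫ ω in exitAt D N k, rho (D (grid N k) ω) ∂P ≤ e k / 4 := by
    intro k hk
    rw [he, ← integral_div]
    exact setIntegral_mono (hri k hk) ((hqi k hk).div_const 4) fun ω => rho_le_qq _
  set E := ∫ ω, err D N ω ∂P with hE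
  have hE0 : 0 ≤ E := integral_nonneg (err_nonneg D N)
  set β : ℕ → ℝ := fun k => ∫ ω in exitAt D N k, D (grid N k) ω ∂P with hβ
  set Q : ℕ → ℝ := fun k => ∫ ω in C k, D (grid N k) ω ∂P with hQ
  set p : ℕ → ℝ := fun k => P.real (C k) with hp
  -- (a) second moments
  have ha : ∑ k ∈ Finset.Icc 1 N, ∫ ω in exitAt D N k, D (grid N k) ω ^ 2 ∂P ≤
      4 * ∑ k ∈ Finset.Icc 1 N, β k + E := by
    rw [← hesum, Finset.mul_sum, ← Finset.sum_add_distrib]
    refine Finset.sum_le_sum fun k hk => ?_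
    have : 4 * β k + e k = ∫ ω in exitAt D N k, (4 * D (grid N k) ω + qq (D (grid N k) ω)) ∂P := by
      rw [integral_add ((hDi _).integrableOn.const_mul 4) (hqi k hk), integral_const_mul]
    rw [this]
    exact setIntegral_mono (hD2i _).integrableOn
      (((hDi _).integrableOn.const_mul 4).add (hqi k hk)) fun ω => sq_le_qq _
  have ha2 : ∫ ω in alive D 32, D 32 ω ^ 2 ∂P ≤ 4 * ∫ ω in alive D 32, D 32 ω ∂P := by
    rw [← integral_const_mul]
    refine setIntegral_mono_on (hD2i _).integrableOn ((hDi _).integrableOn.const_mul 4) (halm _) ?_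
    intro ω hω
    have := hω 32 le_rfl
    nlinarith
  -- (b) values below 2
  have hCB : ∀ k, C k ⊆ exitAt D N k := fun k => inter_subset_left
  have hQi : ∀ k, ∫ ω in exitAt D N k, (C k).indicator (fun ω => D (grid N k) ω) ω ∂P = Q k := by
    intro k
    rw [setIntegral_indicator (hCm k), Set.inter_eq_self_of_subset_right (hCB k)]
  have hbC : ∀ k ∈ Finset.Icc 1 N, β k ≤ Q k + ∫ ω in exitAt D N k, rho (D (grid N k) ω) ∂P := by
    intro k hk
    rw [← hQi k, ← integral_add (((hDi _).indicator (hCm k)).integrableOn) (hri k hk)]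
    refine setIntegral_mono_on (hDi _).integrableOn
      ((((hDi _).indicator (hCm k)).integrableOn).add (hri k hk)) (hB k) ?_
    intro ω hω
    by_cases hωC : ω ∈ C k
    · simp only [Set.indicator_of_mem hωC]
      linarith [rho_nonneg (D (grid N k) ω)]
    · simp only [Set.indicator_of_notMem hωC, zero_add]
      apply le_rho_of_lt
      by_contra hcon
      exact hωC ⟨hω, not_lt.1 hcon⟩
  have hpC : ∀ k ∈ Finset.Icc 1 N, 4 * p k ≤ Q k + ∫ ω in exitAt D N k, rho (D (grid N k) ω) ∂P := by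
    intro k hk
    have e1 : 4 * p k = ∫ _ in C k, (4 : ℝ) ∂P := by
      rw [setIntegral_const, smul_eq_mul, mul_comm]
    have e2 : ∫ ω in C k, rho (D (grid N k) ω) ∂P ≤ ∫ ω in exitAt D N k, rho (D (grid N k) ω) ∂P :=
      setIntegral_mono_set (hri k hk) (Eventually.of_forall fun ω => rho_nonneg _)
        (hCB k).eventuallyLE
    refine le_trans ?_ (add_le_add_right e2 (Q k))
    rw [e1, ← integral_add (hDi _).integrableOn ((hri k hk).mono_set (hCB k))]
    refine setIntegral_mono_on (integrable_const _).integrableOn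
      ((hDi _).integrableOn.add ((hri k hk).mono_set (hCB k))) (hCm k) ?_
    intro ω hω
    have := sub_le_rho hω.2
    linarith
  have hVC : ∀ k ∈ Finset.Icc 1 N, ∫ ω in C k, V (grid N k) ω ∂P ≤
      ∫ ω in exitAt D N k, V (grid N k) ω ∂P := fun k _ =>
    setIntegral_mono_set (hVi _).integrableOn (Eventually.of_forall fun ω => hV0 _ ω)
      (inter_subset_left : C _ ⊆ exitAt D N _).eventuallyLE
  have hfin : ∑ k ∈ Finset.Icc 1 N, ∫ ω in C k, (D 32 ω - V 32 ω - 1) ∂P ≤
      ∫ ω, max (D 32 ω - V 32 ω - 1) 0 ∂P := by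
    have hi : Integrable (fun ω => D 32 ω - V 32 ω - 1) P :=
      ((hDi 32).sub (hVi 32)).sub (integrable_const 1)
    have hmax : Integrable (fun ω => max (D 32 ω - V 32 ω - 1) 0) P := hi.pos_part
    rw [← integral_biUnion_finset (Finset.Icc 1 N) (fun k _ => hCm k)
      (fun i _ j _ hij => ((exit_pairwise D N Set.univ) (Set.mem_univ i) (Set.mem_univ j) hij).mono
        (hCB i) (hCB j)) (fun k _ => hi.integrableOn)]
    calc ∫ ω in ⋃ k ∈ Finset.Icc 1 N, C k, (D 32 ω - V 32 ω - 1) ∂P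
        ≤ ∫ ω in ⋃ k ∈ Finset.Icc 1 N, C k, max (D 32 ω - V 32 ω - 1) 0 ∂P :=
          setIntegral_mono hi.integrableOn hmax.integrableOn fun ω => le_max_left _ _
      _ ≤ _ := setIntegral_le_integral hmax (Eventually.of_forall fun ω => le_max_right _ _)
  -- (c) combine
  set a : ℕ → ℝ := fun k => P.real (alive D (grid N k)) with ha'
  have ha01 : ∀ k, 0 ≤ a k := fun k => measureReal_nonneg
  have ha1 : ∀ k, a k ≤ 1 := fun k => measureReal_le_one
  set S0 := ∑ k ∈ Finset.range N, a k with hS0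
  have hS1 : S0 - 1 ≤ ∑ k ∈ Finset.Icc 1 N, a k := by
    have e1 : ∑ k ∈ Finset.Icc 1 N, a k = ∑ k ∈ Finset.range N, a (k + 1) := by
      rw [Finset.sum_bij' (fun k _ => k - 1) (fun k _ => k + 1)]
      · intro k hk; simp only [Finset.mem_Icc, Finset.mem_range] at *; omega
      · intro k hk; simp only [Finset.mem_Icc, Finset.mem_range] at *; omega
      · intro k hk; simp only [Finset.mem_Icc] at hk; omega
      · intro k hk; omega
      · intro k hk
        simp only [Finset.mem_Icc] at hk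
        rw [Nat.sub_add_cancel hk.1]
    have e2 : ∑ k ∈ Finset.range N, a (k + 1) = S0 + a N - a 0 := by
      have := Finset.sum_range_succ' a N
      have h' := Finset.sum_range_succ a N
      linarith
    rw [e1, e2]
    linarith [ha1 0, ha01 N]
  have haN : N * a N ≤ S0 := by
    have : ∑ _k ∈ Finset.range N, a N ≤ S0 := by
      refine Finset.sum_le_sum fun k hk => ?_
      refine measureReal_mono (alive_anti D (grid_mono N (Finset.mem_range.1 hk).le))
    simpa using this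
  set τ := 32 / (N : ℝ) * S0 with hτ
  have hS0nn : 0 ≤ S0 := Finset.sum_nonneg fun k _ => ha01 k
  have hτ0 : 0 ≤ τ := by positivity
  have h32 : P.real (alive D 32) ≤ τ / 32 := by
    have : P.real (alive D 32) = a N := by
      show P.real (alive D 32) = P.real (alive D (grid N N))
      rw [grid_self hN]
    rw [this, hτ, div_mul_eq_mul_div, div_div, le_div_iff₀ (by positivity)]
    linarith
  have hID : ∫ ω in alive D 32, D 32 ω ∂P ≤ τ / 8 := by
    have : ∫ ω in alive D 32, D 32 ω ∂P ≤ ∫ _ in alive D 32, (4 : ℝ) ∂P := by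
      refine setIntegral_mono_on (hDi _).integrableOn (integrable_const _).integrableOn (halm _) ?_
      intro ω hω
      exact (hω 32 le_rfl).2.le
    rw [setIntegral_const, smul_eq_mul] at this
    linarith
  have hτ2 : τ ≤ 2 * g + 32 / N + E / 2 := by
    have e1 : 64 / (N : ℝ) * (S0 - 1) ≤ 64 / N * ∑ k ∈ Finset.Icc 1 N, a k := by gcongr
    have e2 : 64 / (N : ℝ) * (S0 - 1) = 2 * τ - 2 * (32 / N) := by rw [hτ]; ring
    have e3 : 0 ≤ g ^ 2 := sq_nonneg g
    linarith
  have hsum1 : ∑ k ∈ Finset.Icc 1 N, β k ≤ (∑ k ∈ Finset.Icc 1 N, Q k) + E / 4 := by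
    rw [← hesum, Finset.sum_div, ← Finset.sum_add_distrib]
    exact Finset.sum_le_sum fun k hk => (hbC k hk).trans (add_le_add_right (hrho k hk) _)
  have hsum2 : 4 * ∑ k ∈ Finset.Icc 1 N, p k ≤ (∑ k ∈ Finset.Icc 1 N, Q k) + E / 4 := by
    rw [← hesum, Finset.sum_div, ← Finset.sum_add_distrib, Finset.mul_sum]
    exact Finset.sum_le_sum fun k hk => (hpC k hk).trans (add_le_add_right (hrho k hk) _)
  have hsum3 : ∑ k ∈ Finset.Icc 1 N, ∫ ω in C k, V (grid N k) ω ∂P ≤ τ / 64 := by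
    have e1 : 0 ≤ ∫ ω in alive D 32, V 32 ω ∂P := integral_nonneg fun ω => hV0 _ ω
    have e2 := Finset.sum_le_sum hVC
    have e3 : Λ * (32 / (N : ℝ)) * S0 = Λ * τ := by rw [hτ]; ring
    have e4 : Λ * τ ≤ 1 / 64 * τ := by gcongr
    linarith
  have hsum4 : (∑ k ∈ Finset.Icc 1 N, Q k) - (∑ k ∈ Finset.Icc 1 N, ∫ ω in C k, V (grid N k) ω ∂P) -
      3 / 2 * ∑ k ∈ Finset.Icc 1 N, p k ≤
      ∑ k ∈ Finset.Icc 1 N, ∫ ω in C k, (D 32 ω - V 32 ω - 1) ∂P := by
    rw [Finset.mul_sum, ← Finset.sum_sub_distrib, ← Finset.sum_sub_distrib]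
    refine Finset.sum_le_sum fun k hk => ?_
    have e1 := h4 k (Finset.mem_Icc.1 hk).2 (C k) (hCF k)
    rw [integral_sub (hDi _).integrableOn (hVi _).integrableOn] at e1
    have e2 : ∫ ω in C k, (D 32 ω - V 32 ω - 1) ∂P = (∫ ω in C k, (D 32 ω - V 32 ω) ∂P) - p k := by
      have hdv : Integrable (fun ω => D 32 ω - V 32 ω) P := (hDi 32).sub (hVi 32)
      rw [integral_sub hdv.integrableOn (integrable_const _).integrableOn,
        setIntegral_const, smul_eq_mul, mul_one]
    rw [e2]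
    have e3 : 32 * Λ * p k ≤ 1 / 2 * p k := by
      have : 0 ≤ p k := measureReal_nonneg
      nlinarith
    have e4 : p k = P.real (C k) := rfl
    rw [← e4] at e1
    have e5 : Q k = ∫ ω in C k, D (grid N k) ω ∂P := rfl
    rw [← e5] at e1
    linarith
  have hN3 : 3 / 32 * (32 / (N : ℝ)) = 3 / N := by ring
  have hp0 : 0 ≤ ∑ k ∈ Finset.Icc 1 N, p k := Finset.sum_nonneg fun k _ => measureReal_nonneg
  nlinarith

lemma err_bound (D : ℝ≥0 → Ω → ℝ) {N : ℕ} (hN : 1 ≤ N) (ω : Ω) {S : ℝ}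
    (hS : ∀ s ≤ (32 : ℝ≥0), |D s ω| ≤ S) : err D N ω ≤ S * (4 + S) := by
  have hS0 : 0 ≤ S := (abs_nonneg _).trans (hS 0 (by positivity))
  refine err_le D N ω (by positivity) fun k hk _ => ?_
  have h1 := (rho_le_abs (D (grid N k) ω)).trans (hS _ (grid_le hN (Finset.mem_Icc.1 hk).2))
  have h0 := rho_nonneg (D (grid N k) ω)
  unfold qq
  nlinarith

theorem main (hDoob : S_DOOB) (hG : S_GAPD) : S_GAP := by
  intro Ω mΩ P hP F D V b g Λ hg hΛ0 hΛ1 hDc hD0 hD2 hDM hDM2 hVa hV0 hVn hb hbm hVM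
  have hDF : ∀ t, Measurable[F t] (D t) := fun t => (hDM.stronglyAdapted t).measurable
  have hDm : ∀ t, Measurable (D t) := fun t => (hDF t).mono (F.le t) le_rfl
  have hDi : ∀ t, Integrable (D t) P := fun t => (hD2 t).integrable one_le_two
  by_cases hg4 : g < 4
  · obtain ⟨hal, hVi, hN⟩ := hG Ω mΩ P hP F D V b g Λ hg hg4 hΛ0 hDc hD0 hD2 hDM hDM2 hVa hV0 hVn
      hb hbm hVM
    obtain ⟨S, hS2, hS⟩ := hDoob Ω mΩ P hP F D hDc hD2 hDM 32
    have hB : ∀ N k, MeasurableSet (exitAt D N k) := fun N k =>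
      MeasurableSet.diff (F.le _ _ (hal _)) (F.le _ _ (hal _))
    have hmeas : ∀ N, AEStronglyMeasurable (err D N) P := by
      intro N
      refine Measurable.aestronglyMeasurable ?_
      unfold err
      exact Finset.measurable_sum _ fun k _ =>
        (continuous_qq.measurable.comp (hDm _)).indicator (hB N k)
    have hSi : Integrable (fun ω => S ω * (4 + S ω)) P := by
      have : (fun ω => S ω * (4 + S ω)) = fun ω => 4 * S ω + S ω ^ 2 := by
        funext ω; ring
      rw [this]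
      exact ((hS2.integrable one_le_two).const_mul 4).add hS2.integrable_sq
    have hbd : ∀ N, 1 ≤ N → ∀ᵐ ω ∂P, ‖err D N ω‖ ≤ S ω * (4 + S ω) := by
      intro N hN1
      filter_upwards [hS] with ω hω
      rw [Real.norm_of_nonneg (err_nonneg _ _ _)]
      exact err_bound D hN1 ω hω
    have hint : ∀ N, 1 ≤ N → Integrable (err D N) P := fun N hN1 =>
      hSi.mono' (hmeas N) (hbd N hN1)
    have hlim : Tendsto (fun N => ∫ ω, err D (N + 1) ω ∂P) atTop (𝓝 0) := by
      have := tendsto_integral_of_dominated_convergence (μ := P) (f := fun _ => (0 : ℝ))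
        (F := fun N ω => err D (N + 1) ω) (fun ω => S ω * (4 + S ω)) (fun N => hmeas (N + 1)) hSi
        (fun N => hbd (N + 1) (by omega))
        (Eventually.of_forall fun ω => (tendsto_err D ω (hDc ω)).comp (tendsto_add_atTop_nat 1))
      simpa using this
    have hlim2 : Tendsto (fun N : ℕ => 7 / 16 * g - 3 / ((N + 1 : ℕ) : ℝ) -
        19 / 64 * ∫ ω, err D (N + 1) ω ∂P) atTop (𝓝 (7 / 16 * g - 0 - 19 / 64 * 0)) := by
      refine Tendsto.sub (Tendsto.sub tendsto_const_nhds ?_) (hlim.const_mul _)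
      exact (tendsto_const_div_atTop_nhds_zero_nat (3 : ℝ)).comp (tendsto_add_atTop_nat 1)
    have hle : 7 / 16 * g - 0 - 19 / 64 * 0 ≤ ∫ ω, max (D 32 ω - V 32 ω - 1) 0 ∂P := by
      refine le_of_tendsto' hlim2 fun N => ?_
      obtain ⟨h1, h2, h3, h4⟩ := hN (N + 1) (by omega)
      exact core hΛ1 hΛ0 hVn hDm hD2 hVi hal hDF (N + 1) (by omega) (hint _ (by omega)) h1 h2 h3 h4
    linarith
  · -- large initial gap
    rw [not_lt] at hg4
    have hVi : Integrable (V 32) P := by
      have hm : Measurable (V 32) := ((hVa 32).measurable).mono (F.le 32) le_rfl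
      refine ((hVM.integrable 32).norm.add (integrable_const (Λ * 32))).mono' hm.aestronglyMeasurable ?_
      refine Eventually.of_forall fun ω => ?_
      have hb1 : |∫ s in (0 : ℝ)..((32 : ℝ≥0) : ℝ), b s.toNNReal ω| ≤ Λ * 32 := by
        have := intervalIntegral.norm_integral_le_of_norm_le_const (a := (0:ℝ)) (b := ((32 : ℝ≥0) : ℝ))
          (f := fun s => b s.toNNReal ω) (C := Λ) (fun s _ => by
            rw [Real.norm_of_nonneg (hb _ _).1]; exact (hb _ _).2)
        simpa using this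
      simp only [Pi.add_apply, Real.norm_eq_abs]
      calc |V 32 ω| = |(V 32 ω - ∫ s in (0 : ℝ)..((32 : ℝ≥0) : ℝ), b s.toNNReal ω) +
            ∫ s in (0 : ℝ)..((32 : ℝ≥0) : ℝ), b s.toNNReal ω| := by ring_nf
        _ ≤ _ := (abs_add_le _ _).trans (add_le_add_right hb1 _)
    have hEV : ∫ ω, V 32 ω ∂P ≤ Λ * 32 := by
      have e1 := hVM.setIntegral_eq (i := 0) (j := 32) (by positivity) (MeasurableSet.univ)
      simp only [setIntegral_univ, NNReal.coe_zero, intervalIntegral.integral_same, sub_zero] at e1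
      have e2 : ∫ ω, V 0 ω ∂P = 0 := integral_eq_zero_of_ae hV0
      rw [e2] at e1
      have e3 : ∫ ω, V 32 ω ∂P ≤ ∫ ω, ((V 32 ω - ∫ s in (0 : ℝ)..((32 : ℝ≥0) : ℝ), b s.toNNReal ω) +
          Λ * 32) ∂P := by
        refine integral_mono hVi ((hVM.integrable 32).add (integrable_const _)) fun ω => ?_
        have := intervalIntegral.norm_integral_le_of_norm_le_const (a := (0:ℝ)) (b := ((32 : ℝ≥0) : ℝ))
          (f := fun s => b s.toNNReal ω) (C := Λ) (fun s _ => by
            rw [Real.norm_of_nonneg (hb _ _).1]; exact (hb _ _).2)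
        have h2 : |∫ s in (0 : ℝ)..((32 : ℝ≥0) : ℝ), b s.toNNReal ω| ≤ Λ * 32 := by simpa using this
        have h3 := (abs_le.1 h2).2
        show V 32 ω ≤ (V 32 ω - ∫ s in (0 : ℝ)..((32 : ℝ≥0) : ℝ), b s.toNNReal ω) + Λ * 32
        linarith
      rw [integral_add (hVM.integrable 32) (integrable_const _), ← e1] at e3
      simpa using e3
    have hED : ∫ ω, D 32 ω ∂P = g := by
      have e1 := hDM.setIntegral_eq (i := 0) (j := 32) (by positivity) (MeasurableSet.univ)
      simp only [setIntegral_univ] at e1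
      rw [← e1, integral_congr_ae hD0]
      simp
    have hdv : Integrable (fun ω => D 32 ω - V 32 ω - 1) P :=
      ((hDi 32).sub hVi).sub (integrable_const 1)
    have h1 : ∫ ω, (D 32 ω - V 32 ω - 1) ∂P ≤ ∫ ω, max (D 32 ω - V 32 ω - 1) 0 ∂P :=
      integral_mono hdv hdv.pos_part fun ω => le_max_left _ _
    have hdv' : Integrable (fun ω => D 32 ω - V 32 ω) P := (hDi 32).sub hVi
    rw [integral_sub hdv' (integrable_const 1), integral_sub (hDi 32) hVi, hED] at h1
    simp only [integral_const, probReal_univ, smul_eq_mul, mul_one] at h1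
    nlinarith

end Pool.Agent.W854.HW.GapL
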