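import Pool.Agent.W854.HW.GapL
import Pool.Agent.W250.HWDOOB
import Pool.Agent.W683.HW.Gapd
import Pool.Agent.W427.HW.Inex
import Pool.Agent.W540.HW.Bin
import Pool.Agent.W885.HW.Min
import Pool.Agent.W358.HWSplit
import Pool.Agent.W742.HWGeom
import Pool.Agent.W762.HW.Point
import Pool.Agent.W99.HW.Ind
import Pool.Agent.W597.HW.Flown
import Pool.Agent.W381.HW.AE
import Pool.Agent.W251.HWConv

set_option autoImplicit false

open MeasureTheory ProbabilityTheory Filter Topology Finset Set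
open scoped NNReal ENNReal

noncomputable section

namespace Pool.Agent.W854.HW

theorem s_gap : S_GAP := GapL.main Pool.Agent.W250.HWDOOB.main Pool.Agent.W683.HW.main

theorem s_min : S_MIN :=
  Pool.Agent.W885.HW.main Pool.Agent.W427.HW.Inex.main Pool.Agent.W540.HW.bin
    Pool.Agent.W540.HW.bounds

theorem s_split : S_SPLIT :=
  Pool.Agent.W358.HWSplit.main s_gap s_min Pool.Agent.W540.HW.bounds

theorem s_point : S_POINT := Pool.Agent.W762.HW.main s_split Pool.Agent.W742.HW.main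

theorem s_flown : S_FLOWN :=
  Pool.Agent.W597.HW.main Pool.Agent.W99.HW.ind Pool.Agent.W99.HW.pow s_point

/-- The final composition. -/
theorem final (hF : S_FLOWN → S_FLOW) (hM : S_MEAS) (β : ℝ) (ν : Measure ℝ)
    (hν : speed ν ≤ ENNReal.ofReal (1 / 64)) (Ω : Type) (mΩ : MeasurableSpace Ω) (P : Measure Ω)
    (hP : IsProbabilityMeasure P) (K : ℝ → ℝ → Kernel (Ω × ℝ) ℝ)
    (hK : IsHowittWarrenFlow β ν P K) :
    ∀ᵐ x : ℝ, ∀ (c σ : ℝ) (χ : Measure ℝ), σ ≠ 0 → IsProbabilityMeasure χ →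
      ¬ Converges P K x c σ χ := by
  have h := Pool.Agent.W381.HW.main (fun t a => emptyProb P K t a) (12 + 64 * |β|)
    (fun t ht => hM Ω mΩ P hP K t (by linarith) hK.flow) (fun t a => prob_le_one)
    (fun t j₀ j₁ ht hj => hF s_flown β ν hν Ω mΩ P hP K hK t j₀ j₁ ht hj)
  filter_upwards [h] with x hx c σ χ hσ hχ hc
  exact hx (Pool.Agent.W251.HWConv.main Ω mΩ P hP K x c σ χ hχ hσ hc)

theorem speed_ex :
    speed (ENNReal.ofReal (1 / 512) • Measure.dirac (1 / 2 : ℝ)) ≤ ENNReal.ofReal (1 / 64) := by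
  unfold speed
  rw [lintegral_smul_measure, lintegral_dirac' _ (by fun_prop)]
  have h1 : (1 - 1 / 2 : ℝ) = 1 / 2 := by norm_num
  rw [h1, ← ENNReal.ofReal_inv_of_pos (by norm_num)]
  rw [← ENNReal.ofReal_add (by norm_num) (by norm_num), smul_eq_mul,
    ← ENNReal.ofReal_mul (by norm_num)]
  have h2 : (2 : ℝ≥0∞) = ENNReal.ofReal 2 := by norm_num
  rw [h2, ← ENNReal.ofReal_mul (by norm_num)]
  apply ENNReal.ofReal_le_ofReal
  norm_num

end Pool.Agent.W854.HW
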